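import Pool.Agent.T9h42.GG.Spec4
import Pool.Agent.T9h5.GG.Lem
import Pool.Agent.T9h42.GF.C5

/-!
# Port of `T9h42.GF.{C1,C4}`
-/

set_option autoImplicit false

namespace Pool.Agent.T9h42.GG

open Finset Pool.Agent.T9h5.GG
open Pool.Agent.T9h42.GF (ncard_sep ncard_pi ncard_sub geom_tail two_pow_div_le mul_div_le_div
  lim_small nums)

section basic

variable {A Z : Type} [CommRing A] [IsDomain A] (S : Ar A Z)

theorem mem_cop (hB : BoxMem) {M x : A} {D : ℕ} :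
    x ∈ S.Cop M D ↔ S.mon x ∧ S.ht x = D ∧ IsCoprime x M := (hB A Z S).2.1 M x D

/-- the size of `Cop`. -/
theorem cop_card (hB : BoxMem) (hC : BoxCop) (M : A) (hM : M ≠ 0) : ∃ φ : ℕ, 0 < φ ∧
    ∀ D : ℕ, S.δ * S.ht M + S.c₀ ≤ S.δ * D →
      (S.Cop M D).card * S.q ^ (S.δ * S.ht M + S.c) = φ * S.q ^ (S.δ * D) := by
  classical
  obtain ⟨φ, h1, h2⟩ := hC A Z S M hM
  refine ⟨φ, h1, fun D hD => ?_⟩
  obtain ⟨g, hg1, hg2⟩ := S.mon_ex D (by omega)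
  rw [← h2 g 0 D hD, ncard_sep]
  congr 2
  ext x
  rw [mem_cop S hB, mem_filter, (hB A Z S).1, sub_zero, ← S.mon_iff hg1 hg2]
  tauto

theorem two_le_q' : (2 : ℝ) ≤ S.q := by
  exact_mod_cast S.two_le_q

theorem q_pos' : (0 : ℝ) < S.q := lt_of_lt_of_le two_pos (two_le_q' S)

theorem cop_ratio (hB : BoxMem) (hC : BoxCop) (M : A) (hM : M ≠ 0) (D E : ℕ)
    (hD : S.δ * S.ht M + S.c₀ ≤ S.δ * D) (hE : D ≤ E) :
    ((S.Cop M E).card : ℝ) = (S.Cop M D).card * (S.q : ℝ) ^ (S.δ * (E - D)) := by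
  obtain ⟨φ, h1, h2⟩ := cop_card S hB hC M hM
  have h3 := h2 D hD
  have h4 := h2 E (hD.trans (Nat.mul_le_mul_left _ hE))
  have h3' : ((S.Cop M D).card : ℝ) * (S.q : ℝ) ^ (S.δ * S.ht M + S.c) =
      φ * (S.q : ℝ) ^ (S.δ * D) := by exact_mod_cast h3
  have h4' : ((S.Cop M E).card : ℝ) * (S.q : ℝ) ^ (S.δ * S.ht M + S.c) =
      φ * (S.q : ℝ) ^ (S.δ * E) := by exact_mod_cast h4
  have h5 : (S.q : ℝ) ^ (S.δ * E) = (S.q : ℝ) ^ (S.δ * D) * (S.q : ℝ) ^ (S.δ * (E - D)) := by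
    rw [← pow_add, ← Nat.mul_add]
    congr 2
    omega
  have h6 : (0 : ℝ) < (S.q : ℝ) ^ (S.δ * S.ht M + S.c) := pow_pos (q_pos' S) _
  refine mul_right_cancel₀ h6.ne' ?_
  rw [h4', h5, ← mul_assoc, ← h3']
  ring

theorem cop_lower (hB : BoxMem) (hC : BoxCop) (M : A) (hM : M ≠ 0) (D : ℕ)
    (hD : S.δ * S.ht M + S.c₀ ≤ S.δ * D) :
    (S.q : ℝ) ^ (S.δ * D) ≤ (S.q : ℝ) ^ (S.δ * S.ht M + S.c) * (S.Cop M D).card := by
  obtain ⟨φ, h1, h2⟩ := cop_card S hB hC M hM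
  have h3' : ((S.Cop M D).card : ℝ) * (S.q : ℝ) ^ (S.δ * S.ht M + S.c) =
      φ * (S.q : ℝ) ^ (S.δ * D) := by exact_mod_cast h2 D hD
  rw [mul_comm ((S.q : ℝ) ^ (S.δ * S.ht M + S.c)), h3']
  have h4 : (1 : ℝ) ≤ φ := by exact_mod_cast h1
  have h5 : (0 : ℝ) < (S.q : ℝ) ^ (S.δ * D) := pow_pos (q_pos' S) _
  nlinarith

theorem cop_pos (hB : BoxMem) (hC : BoxCop) (M : A) (hM : M ≠ 0) (D : ℕ)
    (hD : S.δ * S.ht M + S.c₀ ≤ S.δ * D) : 0 < (S.Cop M D).card := by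
  obtain ⟨φ, h1, h2⟩ := cop_card S hB hC M hM
  have h3 := h2 D hD
  have h4 : 0 < φ * S.q ^ (S.δ * D) := Nat.mul_pos h1 (pow_pos S.q_pos _)
  rw [← h3] at h4
  exact Nat.pos_of_mul_pos_right h4

/-- products of elements of sign `1`. -/
theorem prod_mem_cop (hB : BoxMem) {M : A} {D n : ℕ} {v : Fin n → A}
    (hv : ∀ i, v i ∈ S.Cop M D) : (∏ i, v i) ∈ S.Cop M (n * D) := by
  rw [mem_cop S hB]
  have h1 : ∀ i, S.mon (v i) := fun i => ((mem_cop S hB).1 (hv i)).1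
  refine ⟨S.mon_prod _ _ fun i _ => h1 i, ?_, ?_⟩
  · rw [S.ht_prod _ _ fun i _ => S.mon_ne _ (h1 i)]
    rw [sum_congr rfl fun i _ => ((mem_cop S hB).1 (hv i)).2.1]
    simp
  · exact IsCoprime.prod_left fun i _ => ((mem_cop S hB).1 (hv i)).2.2

theorem cp_of_coprime (hI : CopIff) {x M : A} (hx : x ≠ 0) (hM : M ≠ 0) (h : IsCoprime x M) :
    S.Cp (S.dv x) M := (hI A Z S x M hx hM).1 h

theorem cp_mono {E F : Z →₀ ℕ} {M : A} (h : E ≤ F) (hF : S.Cp F M) : S.Cp E M := by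
  intro z
  rcases hF z with h1 | h1
  · left
    have := h z
    omega
  · exact Or.inr h1

/-- few divisors. -/
theorem tau_le (hT : Tau) {M : A} {w : ℕ} (hw : ∀ z, S.dg z ≤ w → S.dv M z ≠ 0)
    {E : Z →₀ ℕ} (hE : S.Cp E M) : (dvs E).card ≤ 2 ^ (S.dE E / (w + 1)) := by
  refine hT A Z S (w + 1) E (by omega) fun z hz => ?_
  by_contra hcon
  rcases hE z with h | h
  · exact hz h
  · exact hw z (by omega) h

/-- there are no divisors of degree `1 ≤ n ≤ w` prime to `M`. -/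
theorem ecop_empty (hB : BoxMem) {M : A} {w : ℕ} (hw : ∀ z, S.dg z ≤ w → S.dv M z ≠ 0) {n : ℕ}
    (h1 : 1 ≤ n) (h2 : n ≤ w) : S.Ecop M n = ∅ := by
  classical
  rw [eq_empty_iff_forall_notMem]
  intro E hE
  rw [(hB A Z S).2.2.1] at hE
  obtain ⟨h3, h4⟩ := hE
  have h5 : E ≠ 0 := by
    rintro rfl
    rw [S.dE_zero] at h3
    omega
  obtain ⟨z, hz⟩ := Finsupp.ne_iff.1 h5
  rw [Finsupp.coe_zero, Pi.zero_apply] at hz
  rcases h4 z with h | h
  · exact hz h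
  · have h6 := S.le_dE (E := E) z
    have h7 : S.dg z ≤ E z * S.dg z := Nat.le_mul_of_pos_left _ (Nat.pos_of_ne_zero hz)
    exact hw z (by omega) h

theorem mon_dv_inj {x y : A} (hx : S.mon x) (hy : S.mon y) (h : S.dv x = S.dv y) : x = y := by
  have hx0 := S.mon_ne x hx
  have hy0 := S.mon_ne y hy
  obtain ⟨u, rfl⟩ := (S.dvd_iff hx0 hy0).2 h.le
  have hu : S.mon u := S.mon_cancel x u hx hy
  have hu0 := S.mon_ne u hu
  rw [S.dv_mul x u hx0 hu0] at h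
  have h1 : S.dv u = 0 := by
    have := left_eq_add.1 h
    exact this
  rw [S.mon_unit hu ((S.ht_unit hu0).2 h1), mul_one]

theorem aw_nonneg (α β : A) (E d n : ℕ) (α₁ c f : A) : 0 ≤ aw S α β E d n α₁ c f := by
  classical
  unfold aw
  refine sum_nonneg fun v _ => ?_
  split_ifs
  · exact zero_le_one
  · exact le_refl _

theorem aw_le (hB : BoxMem) (hI : CopIff) (hT : Tau) {α β : A} (hM : α * β ≠ 0) {w : ℕ}
    (hw : ∀ z, S.dg z ≤ w → S.dv (α * β) z ≠ 0) (E d n : ℕ)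
    (α₁ c f : A) (hf : f ∈ S.Cop (α * β) (n * d)) (hwn : 4 * (S.δ * n * n + 1) ≤ w + 1) :
    aw S α β E d n α₁ c f ≤ 2 ^ (d / 4) := by
  classical
  rw [mem_cop S hB] at hf
  obtain ⟨h1, h2, h3⟩ := hf
  have hf0 := S.mon_ne f h1
  have h4 := tau_le S hT hw (cp_of_coprime S hI hf0 hM h3)
  unfold aw
  rw [sum_boole]
  have h6 : ((Fintype.piFinset (fun _ : Fin n => S.Cop (α * β) d)).filter
      (fun v => ∏ i, v i = f ∧ Ph S α β E α₁ c f)).card ≤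
      (Fintype.piFinset (fun _ : Fin n => dvs (S.dv f))).card := by
    refine card_le_card_of_injOn (fun v i => S.dv (v i)) ?_ ?_
    · intro v hv
      rw [mem_coe, mem_filter, Fintype.mem_piFinset] at hv
      rw [mem_coe, Fintype.mem_piFinset]
      intro i
      rw [dvs, Finset.mem_Iic]
      refine S.dv_le_of_dvd hf0 ?_
      rw [← hv.2.1]
      exact dvd_prod_of_mem _ (mem_univ i)
    · intro v hv v' hv' h
      rw [mem_coe, mem_filter, Fintype.mem_piFinset] at hv hv'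
      funext i
      exact mon_dv_inj S ((mem_cop S hB).1 (hv.1 i)).1 ((mem_cop S hB).1 (hv'.1 i)).1
        (congrFun h i)
  rw [Fintype.card_piFinset_const] at h6
  have h7 : (dvs (S.dv f)).card ^ n ≤ 2 ^ (d / 4) := by
    refine (Nat.pow_le_pow_left h4 n).trans ?_
    rw [← pow_mul]
    refine Nat.pow_le_pow_right (by norm_num) ?_
    rw [S.dE_dv' hf0, h2, mul_comm]
    refine mul_div_le_div n (S.δ * (n * d)) w (S.δ * n * n + 1) d (by omega) hwn ?_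
    nlinarith
  exact_mod_cast h6.trans h7

end basic

end Pool.Agent.T9h42.GG
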