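import Pool.Agent.T9h42.GG.C1

/-!
# Port of `T9h42.GF.C5`
-/

set_option autoImplicit false

namespace Pool.Agent.T9h42.GG

open Finset Pool.Agent.T9h5.GG
open Pool.Agent.T9h42.GF (ncard_sep ncard_pi ncard_sub geom_tail two_pow_div_le mul_div_le_div
  lim_small nums)

theorem sieveBound' (hB : BoxMem) (hCop : BoxCop) (hI : CopIff) (hEC : EffCount) (hDC : DivCount)
    (hT : Tau) (hDP : DivProd) (hS : Sieve) (hSA : SumAwOne) (hCA : CharAw) : SieveBound := by
  classical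
  intro A Z' _ _ S r ε hr hε
  set s1 := 2 * r - 1 with hs1
  set n0 := 2 * r * (2 * r + 1) with hn0
  set B0 := s1 + 2 * n0 with hB0
  have hB0pos : 0 < B0 := by omega
  set q : ℝ := (S.q : ℝ) with hq
  have hq0 : 0 < q := q_pos' S
  have hq2 : 2 ≤ q := two_le_q' S
  have hq1 : 1 ≤ q := by linarith
  obtain ⟨C₁, hC₁⟩ := hEC A Z' S
  obtain ⟨w1, hw1⟩ : ∃ w1 : ℕ, ∀ w : ℕ, w1 ≤ w →
      (5 / 8 : ℝ) ^ (w + 1) / (1 - 5 / 8) ≤ ε / 2 / (C₁ + 1) := by
    have h1 := tendsto_pow_atTop_nhds_zero_of_lt_one (r := (5 / 8 : ℝ)) (by norm_num)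
      (by norm_num)
    have h2 := h1.eventually (gt_mem_nhds
      (show (0 : ℝ) < ε / 2 / (C₁ + 1) * (1 - 5 / 8) by positivity))
    obtain ⟨m₀, hm₀⟩ := Filter.eventually_atTop.1 h2
    refine ⟨m₀, fun w hw => ?_⟩
    rw [div_le_iff₀ (by norm_num)]
    exact (hm₀ (w + 1) (by omega)).le
  refine ⟨w1 + (5 * B0 + 4 * (s1 * (S.δ * (s1 * (2 * r + 2))) + 1) +
    4 * (S.δ * n0 * n0 + 1)), ?_⟩
  intro w hw α β hα hβ hprim j hj
  have hα0 := S.mon_ne α hα
  have hβ0 := S.mon_ne β hβ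
  have hM0 : (α * β) ≠ 0 := mul_ne_zero hα0 hβ0
  set M := α * β with hMdef
  have hMht : S.ht M = S.ht α + S.ht β := S.ht_mul hα0 hβ0
  set κ₀ := S.ht α + 2 * r * j with hκ₀
  set c1 := S.δ * κ₀ + S.δ * S.ht M + S.c₀ with hc1
  set Bq : ℝ := q ^ (S.δ * S.ht M + S.c₀ + S.δ) with hBq
  have hBq0 : 0 < Bq := by positivity
  set Aq : ℝ := Bq ^ s1 * q ^ (S.c₀ + 2 * S.δ) * (q ^ (S.δ * S.ht M + S.c)) ^ n0 *
    q ^ (S.δ * κ₀) with hAq
  have hAq0 : 0 < Aq := by positivity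
  set A' : ℝ := (S.δ * (s1 * (2 * r + 2)) : ℕ) * Aq with hA
  obtain ⟨d1, hd1⟩ := lim_small q A' hq2 (by positivity) c1 (ε / 2) (by positivity)
  refine ⟨d1 + c1 + j + 1, ?_⟩
  intro d hd e L n n' he hL hn hn' α₁ hα₁ hdvd hcop hα₁d c hc
  obtain ⟨hN1, hN2, hN3, hN4, hN5⟩ := nums r d j (S.ht α) (S.ht β) hr (by omega) hj e L n
    he hL hn
  rw [← hs1] at hN1 hN4 hN5
  have hnn0 : n = n0 := hn
  set E := s1 * e + e with hE
  have hδd : d ≤ S.δ * d := Nat.le_mul_of_pos_left _ S.δ_pos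
  set D₀ := S.δ * d - c1 with hD₀
  have hc1d : c1 ≤ S.δ * d := by omega
  have hκ : L - E = κ₀ := by omega
  have hLE : L = E + κ₀ := by omega
  have hδe : S.δ * d ≤ S.δ * e := Nat.mul_le_mul_left _ hN3
  set x : ℝ := ((S.Cop M d).card : ℝ) with hx
  set y : ℝ := ((S.Cop M e).card : ℝ) with hy
  have hMd : S.δ * S.ht M + S.c₀ ≤ S.δ * d := by omega
  have hMe : S.δ * S.ht M + S.c₀ ≤ S.δ * e := by omega
  have hx0 : 0 < x := by
    rw [hx]
    exact_mod_cast cop_pos S hB hCop M hM0 d hMd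
  have hy0 : 0 < y := by
    rw [hy]
    exact_mod_cast cop_pos S hB hCop M hM0 e hMe
  have hEL : S.ht β + E < L := by omega
  have hδL : S.δ * L = S.δ * E + S.δ * κ₀ := by rw [hLE, Nat.mul_add]
  have hδEd : S.δ * (E + d) = S.δ * E + S.δ * d := Nat.mul_add _ _ _
  have hwM : ∀ z, S.dg z ≤ w → S.dv M z ≠ 0 := hprim
  set Z : ℝ := y ^ s1 * (x ^ n / q ^ (S.δ * (L - E))) ^ 2 with hZ
  have hZ0 : 0 ≤ Z := by positivity
  have hne : 0 ∉ S.Cop M e := by
    intro h
    exact S.mon_ne 0 ((mem_cop S hB).1 h).1 rfl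
  -- divisor counts for `Y`
  have hDY1 : ∀ F : Z' →₀ ℕ, S.Cp F M → S.δ * S.ht M + S.dE F + S.c₀ ≤ S.δ * e →
      (({t : {t // t ∈ Fintype.piFinset (fun _ : Fin s1 => S.Cop M e)} |
        F ≤ S.dv (∏ i, t.1 i)}.ncard : ℕ) : ℝ) *
        q ^ S.dE F ≤ ((dvs F).card : ℝ) ^ s1 * y ^ s1 := by
    intro F hFM hFe
    rw [ncard_sub (Fintype.piFinset (fun _ : Fin s1 => S.Cop M e))
      (fun t => F ≤ S.dv (∏ i, t i))]
    have h1 := hDP A Z' S F (S.Cop M e) 1 s1 hne zero_le_one (fun G hG => by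
      have h21 := (hDC A Z' S M hM0 G e (cp_mono S hG hFM) hMe).1 (by
        have := S.dE_mono hG
        omega)
      rw [one_mul]
      exact_mod_cast h21.le)
    rw [ncard_pi, one_pow, mul_one] at h1
    exact h1
  have hDY2 : ∀ F : Z' →₀ ℕ, S.Cp F M →
      (({t : {t // t ∈ Fintype.piFinset (fun _ : Fin s1 => S.Cop M e)} |
        F ≤ S.dv (∏ i, t.1 i)}.ncard : ℕ) : ℝ) *
        q ^ S.dE F ≤ ((dvs F).card : ℝ) ^ s1 * Bq ^ s1 * y ^ s1 := by
    intro F hFM
    rw [ncard_sub (Fintype.piFinset (fun _ : Fin s1 => S.Cop M e))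
      (fun t => F ≤ S.dv (∏ i, t i))]
    have h1 := hDP A Z' S F (S.Cop M e) Bq s1 hne hBq0.le (fun G hG => by
      have h21 := (hDC A Z' S M hM0 G e (cp_mono S hG hFM) hMe).2
      rw [hBq, hq]
      exact_mod_cast h21)
    rw [ncard_pi] at h1
    exact h1
  -- apply the sieve
  have key := hS A Z' S M (S.Cop M (n * d)) (aw S α β E d n α₁ c) (n * d + 1)
    {t // t ∈ Fintype.piFinset (fun _ : Fin s1 => S.Cop M e)} (fun t => ∏ i, t.1 i)
    (S.δ * (s1 * e)) D₀
    (fun F => ((dvs F).card : ℝ) ^ n' * x ^ n / (q ^ (S.δ * (L - E)) * q ^ S.dE F))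
    (fun n₁ => 2 ^ (d / 4) * Bq ^ s1 * y ^ s1 / q ^ n₁)
    ?_ (aw_nonneg S α β E d n α₁ c) ?_ ?_ ?_ ?_
  rotate_left
  · intro f hf
    rw [mem_cop S hB] at hf
    right
    rw [hf.2.1]
    exact Nat.lt_succ_self _
  · intro t
    have h1 := prod_mem_cop S hB (fun i => (Fintype.mem_piFinset.1 t.2) i)
    rw [mem_cop S hB] at h1
    refine ⟨h1.1, ?_, cp_of_coprime S hI (S.mon_ne _ h1.1) hM0 h1.2.2⟩
    rw [h1.2.1]
  · intro χ F hχ h1 h2 h3
    have h4 := hCA A Z' S α β α₁ hα hβ hα₁ hcop hdvd L E d n'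
      (by rw [hα₁d, ← hn']; omega) hEL c hc χ F hχ h3 (by rw [← hMdef]; omega)
      (by rw [← hMdef]; omega)
    rw [← hn'] at h4
    exact h4
  · intro F hFM hFD
    rw [le_div_iff₀ (by positivity)]
    by_cases hdeg : S.dE F ≤ S.δ * (s1 * e)
    · refine (hDY2 F hFM).trans ?_
      have h1 : ((dvs F).card : ℝ) ^ s1 ≤ 2 ^ (d / 4) := by
        have h2 := tau_le S hT hwM hFM
        have h3 : (dvs F).card ^ s1 ≤ 2 ^ (d / 4) := by
          refine (Nat.pow_le_pow_left h2 s1).trans ?_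
          rw [← pow_mul]
          refine Nat.pow_le_pow_right (by norm_num) ?_
          rw [mul_comm]
          refine mul_div_le_div s1 (S.dE F) w (s1 * (S.δ * (s1 * (2 * r + 2))) + 1) d (by omega)
            (by omega) ?_
          calc s1 * S.dE F ≤ s1 * (S.δ * (s1 * (2 * r + 2) * d)) :=
                Nat.mul_le_mul_left _ (hdeg.trans (Nat.mul_le_mul_left _ hN5))
            _ ≤ (s1 * (S.δ * (s1 * (2 * r + 2))) + 1) * d := by nlinarith
        exact_mod_cast h3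
      have h5 : 0 ≤ Bq ^ s1 * y ^ s1 := by positivity
      rw [mul_assoc, mul_assoc]
      exact mul_le_mul_of_nonneg_right h1 h5
    · have h1 : {t : {t // t ∈ Fintype.piFinset (fun _ : Fin s1 => S.Cop M e)} |
          F ≤ S.dv (∏ i, t.1 i)} = ∅ := by
        rw [Set.eq_empty_iff_forall_notMem]
        intro t hdv
        have h2 := prod_mem_cop S hB (fun i => (Fintype.mem_piFinset.1 t.2) i)
        rw [mem_cop S hB] at h2
        have h3 := S.dE_mono (show F ≤ S.dv (∏ i, t.1 i) from hdv)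
        rw [S.dE_dv' (S.mon_ne _ h2.1), h2.2.1] at h3
        exact hdeg h3
      rw [h1]
      simp only [Set.ncard_empty, Nat.cast_zero, zero_mul]
      positivity
  · intro n₁
    positivity
  -- total mass
  have hsum : ∑ f ∈ S.Cop M (n * d), aw S α β E d n α₁ c f = x ^ n / q ^ (S.δ * (L - E)) := by
    have h1 := hSA A Z' S α β α₁ hα hβ hα₁ hcop hdvd L E d n'
      (by rw [hα₁d, ← hn']; omega) hEL c hc (by rw [← hMdef]; omega)
    rw [← hn'] at h1
    rw [eq_div_iff (by positivity)]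
    exact h1
  -- left-hand side
  have hLHS : ∑ t ∈ Fintype.piFinset (fun _ : Fin s1 => S.Cop M e), q ^ (S.δ * (s1 * e)) *
      (∑ f ∈ S.Cop M (n * d), ∑ f' ∈ S.Cop M (n * d), if (∏ i, t i) ∣ f - f' then
        aw S α β E d n α₁ c f * aw S α β E d n α₁ c f' else 0) =
      ∑ t : {t // t ∈ Fintype.piFinset (fun _ : Fin s1 => S.Cop M e)},
        q ^ (S.δ * S.ht (∏ i, t.1 i)) *
        ∑ f ∈ S.Cop M (n * d), ∑ f' ∈ S.Cop M (n * d), (if (∏ i, t.1 i) ∣ f - f' then
          aw S α β E d n α₁ c f * aw S α β E d n α₁ c f' else 0) := by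
    rw [← sum_coe_sort (Fintype.piFinset (fun _ : Fin s1 => S.Cop M e))]
    refine sum_congr rfl fun t _ => ?_
    have h1 := prod_mem_cop S hB (fun i => (Fintype.mem_piFinset.1 t.2) i)
    rw [mem_cop S hB] at h1
    rw [h1.2.1]
  refine le_trans (le_of_eq ?_) (key.trans ?_)
  · rw [← hLHS]
  rw [Fintype.card_coe, Fintype.card_piFinset_const, hsum]
  -- second term
  have hT2 : ∑ n₁ ∈ Icc 1 D₀, ∑ F ∈ S.Ecop M n₁,
        (({t : {t // t ∈ Fintype.piFinset (fun _ : Fin s1 => S.Cop M e)} |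
          F ≤ S.dv (∏ i, t.1 i)}.ncard : ℕ) : ℝ) * q ^ S.dE F *
          (((dvs F).card : ℝ) ^ n' * x ^ n / (q ^ (S.δ * (L - E)) * q ^ S.dE F)) ^ 2 ≤
      ε / 2 * Z := by
    calc _ ≤ ∑ n₁ ∈ Icc 1 D₀, (if n₁ ≤ w then 0 else (5 / 8 : ℝ) ^ n₁) * (C₁ * Z) := by
          refine sum_le_sum fun n₁ hn₁ => ?_
          rw [mem_Icc] at hn₁
          by_cases hnw : n₁ ≤ w
          · rw [ecop_empty S hB hwM hn₁.1 hnw, sum_empty, if_pos hnw, zero_mul]
          · rw [if_neg hnw]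
            have hterm : ∀ F ∈ S.Ecop M n₁, (({t : {t // t ∈ Fintype.piFinset
                (fun _ : Fin s1 => S.Cop M e)} | F ≤ S.dv (∏ i, t.1 i)}.ncard : ℕ) : ℝ) *
                q ^ S.dE F *
                (((dvs F).card : ℝ) ^ n' * x ^ n / (q ^ (S.δ * (L - E)) * q ^ S.dE F)) ^ 2 ≤
                (5 / 4 : ℝ) ^ n₁ * Z / (q ^ n₁) ^ 2 := by
              intro F hF
              rw [(hB A Z' S).2.2.1] at hF
              obtain ⟨hh2, hh3⟩ := hF
              have h1 := hDY1 F hh3 (by omega)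
              have h2 : ((dvs F).card : ℝ) ^ (s1 + 2 * n') ≤ (5 / 4 : ℝ) ^ n₁ := by
                have h3 := tau_le S hT hwM hh3
                rw [hh2] at h3
                have h4 : (dvs F).card ^ (s1 + 2 * n') ≤ 2 ^ (n₁ / 5) := by
                  refine (Nat.pow_le_pow_left h3 _).trans ?_
                  rw [← pow_mul]
                  refine Nat.pow_le_pow_right (by norm_num) ?_
                  calc n₁ / (w + 1) * (s1 + 2 * n') ≤ n₁ / (w + 1) * B0 :=
                        Nat.mul_le_mul_left _ (by omega)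
                    _ = B0 * (n₁ / (w + 1)) := mul_comm _ _
                    _ ≤ (B0 * n₁) / (w + 1) := Nat.mul_div_le_mul_div_assoc _ _ _
                    _ ≤ (B0 * n₁) / (B0 * 5) := Nat.div_le_div_left (by omega) (by omega)
                    _ = n₁ / 5 := Nat.mul_div_mul_left _ _ hB0pos
                exact (by exact_mod_cast h4 : ((dvs F).card : ℝ) ^ (s1 + 2 * n') ≤
                  (2 : ℝ) ^ (n₁ / 5)).trans (two_pow_div_le n₁)
              rw [hh2] at h1 ⊢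
              have h5 : 0 ≤ (((dvs F).card : ℝ) ^ n' * x ^ n /
                  (q ^ (S.δ * (L - E)) * q ^ n₁)) ^ 2 := by
                positivity
              calc _ ≤ (((dvs F).card : ℝ) ^ s1 * y ^ s1) *
                    (((dvs F).card : ℝ) ^ n' * x ^ n / (q ^ (S.δ * (L - E)) * q ^ n₁)) ^ 2 :=
                    mul_le_mul_of_nonneg_right h1 h5
                _ = ((dvs F).card : ℝ) ^ (s1 + 2 * n') * Z / (q ^ n₁) ^ 2 := by
                    have e1 : ((dvs F).card : ℝ) ^ (s1 + 2 * n') =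
                        ((dvs F).card : ℝ) ^ s1 * (((dvs F).card : ℝ) ^ n') ^ 2 := by
                      rw [pow_add, mul_comm 2 n', pow_mul]
                    rw [hZ, e1, div_pow, div_pow, mul_pow, mul_pow]
                    field_simp
                _ ≤ _ := by
                    refine div_le_div_of_nonneg_right ?_ (by positivity)
                    exact mul_le_mul_of_nonneg_right h2 hZ0
            refine (sum_le_sum hterm).trans ?_
            rw [sum_const, nsmul_eq_mul]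
            have h6 : ((S.Ecop M n₁).card : ℝ) ≤ C₁ * q ^ n₁ := by
              have h60 : (S.Ecop M n₁).card ≤ {F : Z' →₀ ℕ | S.dE F = n₁}.ncard := by
                rw [← Set.ncard_coe_finset]
                refine Set.ncard_le_ncard ?_ (hC₁ n₁).1
                intro F hF
                rw [mem_coe, (hB A Z' S).2.2.1] at hF
                exact hF.1
              have h61 := h60.trans (hC₁ n₁).2
              rw [hq]
              exact_mod_cast h61
            have h7 : (0 : ℝ) ≤ (5 / 4 : ℝ) ^ n₁ * Z / (q ^ n₁) ^ 2 := by positivity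
            calc _ ≤ C₁ * q ^ n₁ * ((5 / 4 : ℝ) ^ n₁ * Z / (q ^ n₁) ^ 2) :=
                  mul_le_mul_of_nonneg_right h6 h7
              _ = ((5 / 4 : ℝ) ^ n₁ / q ^ n₁) * (C₁ * Z) := by
                  field_simp
              _ ≤ (5 / 8 : ℝ) ^ n₁ * (C₁ * Z) := by
                  refine mul_le_mul_of_nonneg_right ?_ (by positivity)
                  rw [← div_pow]
                  refine pow_le_pow_left₀ (by positivity) ?_ _
                  rw [div_le_iff₀ hq0]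
                  linarith
      _ = (∑ n₁ ∈ Icc 1 D₀, (if n₁ ≤ w then 0 else (5 / 8 : ℝ) ^ n₁)) * (C₁ * Z) := by
          rw [sum_mul]
      _ ≤ (ε / 2 / (C₁ + 1)) * (C₁ * Z) := by
          refine mul_le_mul_of_nonneg_right ?_ (by positivity)
          exact (geom_tail _ (by norm_num) (by norm_num) w D₀).trans (hw1 w (by omega))
      _ ≤ ε / 2 * Z := by
          have h8 : (ε / 2 / (C₁ + 1)) * (C₁ * Z) = (ε / 2 * Z) * (C₁ / (C₁ + 1)) := by
            field_simp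
          rw [h8]
          have h9 : (C₁ : ℝ) / (C₁ + 1) ≤ 1 := by
            rw [div_le_one (by positivity)]
            linarith
          have h10 : 0 ≤ ε / 2 * Z := by positivity
          nlinarith
  -- third term
  have hT3 : ∑ n₁ ∈ Icc (D₀ + 1) (S.δ * (s1 * e)), 2 ^ (d / 4) * Bq ^ s1 * y ^ s1 / q ^ n₁ *
        q ^ (max (2 * n₁) (S.δ * (n * d + 1)) + (S.c₀ + S.δ)) *
        ∑ f ∈ S.Cop M (n * d), aw S α β E d n α₁ c f ^ 2 ≤
      ε / 2 * Z := by
    have hsq : ∑ f ∈ S.Cop M (n * d), aw S α β E d n α₁ c f ^ 2 ≤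
        2 ^ (d / 4) * (x ^ n / q ^ (S.δ * (L - E))) := by
      rw [← hsum, mul_sum]
      refine sum_le_sum fun f hf => ?_
      rw [sq]
      refine mul_le_mul_of_nonneg_right ?_ (aw_nonneg S _ _ _ _ _ _ _ _)
      exact aw_le S hB hI hT hM0 hwM E d n α₁ c f hf (by rw [hnn0]; omega)
    have hxl : q ^ (S.δ * (n * d)) ≤ (q ^ (S.δ * S.ht M + S.c)) ^ n * x ^ n := by
      have h1 := cop_lower S hB hCop M hM0 d hMd
      rw [← hq, ← hx] at h1
      rw [← mul_pow, show S.δ * (n * d) = S.δ * d * n by ring, pow_mul]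
      exact pow_le_pow_left₀ (by positivity) h1 n
    have hN4' : S.δ * (s1 * e) + 2 * (S.δ * d) ≤ S.δ * (n * d) := by
      calc S.δ * (s1 * e) + 2 * (S.δ * d) = S.δ * (s1 * e + 2 * d) := by ring
        _ ≤ S.δ * (n * d) := Nat.mul_le_mul_left _ hN4
    have hδ1 : S.δ * (n * d + 1) = S.δ * (n * d) + S.δ := by ring
    have hterm : ∀ n₁ ∈ Icc (D₀ + 1) (S.δ * (s1 * e)),
        2 ^ (d / 4) * Bq ^ s1 * y ^ s1 / q ^ n₁ *
        q ^ (max (2 * n₁) (S.δ * (n * d + 1)) + (S.c₀ + S.δ)) *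
        ∑ f ∈ S.Cop M (n * d), aw S α β E d n α₁ c f ^ 2 ≤
        (Aq * 2 ^ (2 * (d / 4)) / q ^ D₀) * Z := by
      intro n₁ hn₁
      rw [mem_Icc] at hn₁
      have h1 : q ^ (max (2 * n₁) (S.δ * (n * d + 1)) + (S.c₀ + S.δ)) * q ^ D₀ ≤
          q ^ n₁ * (q ^ (S.c₀ + 2 * S.δ) * q ^ (S.δ * (n * d))) := by
        rw [← pow_add, ← pow_add, ← pow_add]
        refine pow_le_pow_right₀ hq1 ?_
        rcases le_total (2 * n₁) (S.δ * (n * d + 1)) with h | h
        · rw [max_eq_right h]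
          omega
        · rw [max_eq_left h]
          omega
      have h2 : q ^ (max (2 * n₁) (S.δ * (n * d + 1)) + (S.c₀ + S.δ)) / q ^ n₁ ≤
          q ^ (S.c₀ + 2 * S.δ) * ((q ^ (S.δ * S.ht M + S.c)) ^ n * x ^ n) / q ^ D₀ := by
        rw [div_le_div_iff₀ (by positivity) (by positivity)]
        calc _ ≤ q ^ n₁ * (q ^ (S.c₀ + 2 * S.δ) * q ^ (S.δ * (n * d))) := h1
          _ ≤ q ^ n₁ * (q ^ (S.c₀ + 2 * S.δ) * ((q ^ (S.δ * S.ht M + S.c)) ^ n * x ^ n)) := by
              gcongr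
          _ = _ := by ring
      calc _ = (2 ^ (d / 4) * Bq ^ s1 * y ^ s1) *
            (q ^ (max (2 * n₁) (S.δ * (n * d + 1)) + (S.c₀ + S.δ)) / q ^ n₁) *
            ∑ f ∈ S.Cop M (n * d), aw S α β E d n α₁ c f ^ 2 := by ring
        _ ≤ (2 ^ (d / 4) * Bq ^ s1 * y ^ s1) *
            (q ^ (S.c₀ + 2 * S.δ) * ((q ^ (S.δ * S.ht M + S.c)) ^ n * x ^ n) / q ^ D₀) *
            (2 ^ (d / 4) * (x ^ n / q ^ (S.δ * (L - E)))) := by
            gcongr
        _ = _ := by
            have e2 : (2 : ℝ) ^ (2 * (d / 4)) = 2 ^ (d / 4) * 2 ^ (d / 4) := by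
              rw [two_mul, pow_add]
            rw [hZ, hκ, hnn0, hAq, e2, div_pow]
            field_simp
    refine (sum_le_sum hterm).trans ?_
    rw [sum_const, nsmul_eq_mul, ← mul_assoc]
    refine mul_le_mul_of_nonneg_right ?_ hZ0
    have h3 : ((Icc (D₀ + 1) (S.δ * (s1 * e))).card : ℝ) ≤ (S.δ * (s1 * (2 * r + 2)) : ℕ) * d := by
      have h4 : (Icc (D₀ + 1) (S.δ * (s1 * e))).card ≤ S.δ * (s1 * (2 * r + 2)) * d := by
        rw [Nat.card_Icc]
        have h40 : S.δ * (s1 * e) ≤ S.δ * (s1 * (2 * r + 2)) * d := by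
          rw [mul_assoc]
          exact Nat.mul_le_mul_left _ hN5
        omega
      exact_mod_cast h4
    have h5 := hd1 d (by omega)
    have h5' : A' * d * 2 ^ (2 * (d / 4)) ≤ ε / 2 * q ^ D₀ := by
      refine h5.trans (mul_le_mul_of_nonneg_left ?_ (by positivity))
      exact pow_le_pow_right₀ hq1 (by omega)
    rw [← mul_div_assoc, div_le_iff₀ (by positivity)]
    refine le_trans ?_ h5'
    rw [hA]
    have h6 : 0 ≤ Aq * 2 ^ (2 * (d / 4)) := by positivity
    calc _ ≤ ((S.δ * (s1 * (2 * r + 2)) : ℕ) * d : ℝ) * (Aq * 2 ^ (2 * (d / 4))) :=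
          mul_le_mul_of_nonneg_right h3 h6
      _ = _ := by ring
  have hT1 : ((((S.Cop M e).card ^ s1 : ℕ)) : ℝ) * (x ^ n / q ^ (S.δ * (L - E))) ^ 2 = Z := by
    rw [hZ, hy]
    push_cast
    rfl
  rw [hT1]
  calc _ ≤ Z + ε / 2 * Z + ε / 2 * Z := add_le_add (add_le_add le_rfl hT2) hT3
    _ = (1 + ε) * Z := by ring

end Pool.Agent.T9h42.GG
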