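import Pool.Agent.T9h42.GG.C5

/-!
# `SieveBoundOf` from the two sub-pieces
-/

set_option autoImplicit false

namespace Pool.Agent.T9h42.GG

open Finset Pool.Agent.T9h5.GG

theorem sieveBoundOf' (h1 : SumAwOneOf) (h2 : CharAwOf) : SieveBoundOf :=
  fun hB hCop hBC hI _ hEC hDC hLC hT hDP hS =>
    sieveBound' hB hCop hI hEC hDC hT hDP hS (h1 hB hLC) (h2 hB hLC hBC hDC hDP)

end Pool.Agent.T9h42.GG
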