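import Pool.Agent.T9h5.GG.Spec2

/-!
# Sub-pieces of `SieveBoundOf`: ports of `T9h42.GF.C2`
-/

set_option autoImplicit false

namespace Pool.Agent.T9h42.GG

open Finset Pool.Agent.T9h5.GG

/-- PIECE `SumAwOne`: total mass (port of `T9h42.GF.sum_aw_one`; from `LocCount` for `H = 0`). -/
def SumAwOne : Prop :=
  ∀ (A Z : Type) [CommRing A] [IsDomain A] (S : Ar A Z) (α β α₁ : A), S.mon α → S.mon β →
    S.mon α₁ → IsCoprime α₁ β → α ∣ α₁ → ∀ (L E d n : ℕ), S.ht α₁ + (n + 1) * d = L →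
    S.ht β + E < L → ∀ c ∈ S.Cop (α * β) L,
    S.δ * L + S.δ * S.ht (α * β) + S.c₀ ≤ S.δ * (E + d) →
    (∑ f ∈ S.Cop (α * β) ((n + 1) * d), aw S α β E d (n + 1) α₁ c f) *
      (S.q : ℝ) ^ (S.δ * (L - E)) = ((S.Cop (α * β) d).card : ℝ) ^ (n + 1)

/-- PIECE `CharAw`: character sums (port of `T9h42.GF.char_aw`; instead of the residues `x %ₘ h`
use representatives of the classes of `A ⧸ S.I H`, which is finite; `Cond` says that
`χ ((∏ v) ρ)` only depends on `ρ` modulo `H`, and is trivial for all `ρ` iff `H` divides `∏ v`). -/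
def CharAw : Prop :=
  ∀ (A Z : Type) [CommRing A] [IsDomain A] (S : Ar A Z) (α β α₁ : A), S.mon α → S.mon β →
    S.mon α₁ → IsCoprime α₁ β → α ∣ α₁ → ∀ (L E d n : ℕ), S.ht α₁ + (n + 1) * d = L →
    S.ht β + E < L → ∀ c ∈ S.Cop (α * β) L, ∀ (χ : AddChar A ℂ) (H : Z →₀ ℕ), S.Cond χ H →
    S.Cp H (α * β) →
    S.δ * L + S.dE H + S.δ * S.ht (α * β) + S.c₀ ≤ S.δ * (E + d) →
    S.δ * S.ht (α * β) + S.dE H + S.c₀ ≤ S.δ * d →
    ‖∑ f ∈ S.Cop (α * β) ((n + 1) * d), ((aw S α β E d (n + 1) α₁ c f : ℝ) : ℂ) * χ f‖ ≤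
      ((dvs H).card : ℝ) ^ n * ((S.Cop (α * β) d).card : ℝ) ^ (n + 1) /
        ((S.q : ℝ) ^ (S.δ * (L - E)) * (S.q : ℝ) ^ S.dE H)

/-- `BoxMem → LocCount → SumAwOne`. -/
def SumAwOneOf : Prop := BoxMem → LocCount → SumAwOne

/-- `BoxMem → LocCount → BoxCount → DivCount → DivProd → CharAw`. -/
def CharAwOf : Prop := BoxMem → LocCount → BoxCount → DivCount → DivProd → CharAw

end Pool.Agent.T9h42.GG
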